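import Mathlib

/-!
A 2-edge-coloured graph on 16 vertices all of whose good sets have at most 5 < 16/3 vertices,
and disjoint unions of copies of it.
-/

namespace Pool.Agent.Results.MP_1e7754_co.NoThird

/-- `R` and `B` are the graphs of red and of blue edges.  `X` is good if every `v ∈ X` has at least
half of its red neighbours and at least half of its blue neighbours outside `X`. -/
def Good {V : Type} (R B : SimpleGraph V) (X : Set V) : Prop :=
  ∀ v ∈ X, (R.neighborSet v).ncard ≤ 2 * (R.neighborSet v \ X).ncard ∧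
    (B.neighborSet v).ncard ≤ 2 * (B.neighborSet v \ X).ncard

/-- Red neighbourhoods. -/
def nR : Fin 16 → List (Fin 16) :=
  ![[1, 2, 3, 4, 7], [0, 5, 6], [0, 5, 6], [0, 4, 6], [0, 3, 5], [1, 2, 4], [1, 2, 3], [0, 12, 13], [10, 11, 15], [10, 11, 15], [8, 9, 12], [8, 9, 13], [7, 10, 13], [7, 11, 12], [15], [8, 9, 14]]

/-- Blue neighbourhoods. -/
def nB : Fin 16 → List (Fin 16) :=
  ![[5, 6, 15], [3, 4, 14], [3, 4, 14], [1, 2, 5], [1, 2, 6], [0, 3, 6], [0, 4, 5], [8, 9, 10, 11, 14], [7, 12, 13], [7, 12, 13], [7, 11, 13], [7, 10, 12], [8, 9, 11], [8, 9, 10], [1, 2, 7], [0]]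

/-- The red graph. -/
def R₀ : SimpleGraph (Fin 16) where
  Adj a b := b ∈ nR a
  symm := ⟨by decide +kernel⟩
  loopless := ⟨by decide +kernel⟩

/-- The blue graph. -/
def B₀ : SimpleGraph (Fin 16) where
  Adj a b := b ∈ nB a
  symm := ⟨by decide +kernel⟩
  loopless := ⟨by decide +kernel⟩

theorem disjoint₀ : Disjoint R₀ B₀ := by
  rw [disjoint_iff, eq_bot_iff]
  intro a b h
  have key : ∀ a b : Fin 16, b ∈ nR a → b ∉ nB a := by decide +kernel
  exact (key a b h.1 h.2).elim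

/-- The Boolean form of the check. -/
theorem check : ∀ a0 a1 a2 a3 a4 a5 a6 a7 a8 a9 a10 a11 a12 a13 a14 a15 : Bool,
    ((!a0 || (decide (a1.toNat + a2.toNat + a3.toNat + a4.toNat + a7.toNat ≤ 2) && decide (a5.toNat + a6.toNat + a15.toNat ≤ 1))) &&
      (!a1 || (decide (a0.toNat + a5.toNat + a6.toNat ≤ 1) && decide (a3.toNat + a4.toNat + a14.toNat ≤ 1))) &&
      (!a2 || (decide (a0.toNat + a5.toNat + a6.toNat ≤ 1) && decide (a3.toNat + a4.toNat + a14.toNat ≤ 1))) &&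
      (!a3 || (decide (a0.toNat + a4.toNat + a6.toNat ≤ 1) && decide (a1.toNat + a2.toNat + a5.toNat ≤ 1))) &&
      (!a4 || (decide (a0.toNat + a3.toNat + a5.toNat ≤ 1) && decide (a1.toNat + a2.toNat + a6.toNat ≤ 1))) &&
      (!a5 || (decide (a1.toNat + a2.toNat + a4.toNat ≤ 1) && decide (a0.toNat + a3.toNat + a6.toNat ≤ 1))) &&
      (!a6 || (decide (a1.toNat + a2.toNat + a3.toNat ≤ 1) && decide (a0.toNat + a4.toNat + a5.toNat ≤ 1))) &&
      (!a7 || (decide (a0.toNat + a12.toNat + a13.toNat ≤ 1) && decide (a8.toNat + a9.toNat + a10.toNat + a11.toNat + a14.toNat ≤ 2))) &&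
      (!a8 || (decide (a10.toNat + a11.toNat + a15.toNat ≤ 1) && decide (a7.toNat + a12.toNat + a13.toNat ≤ 1))) &&
      (!a9 || (decide (a10.toNat + a11.toNat + a15.toNat ≤ 1) && decide (a7.toNat + a12.toNat + a13.toNat ≤ 1))) &&
      (!a10 || (decide (a8.toNat + a9.toNat + a12.toNat ≤ 1) && decide (a7.toNat + a11.toNat + a13.toNat ≤ 1))) &&
      (!a11 || (decide (a8.toNat + a9.toNat + a13.toNat ≤ 1) && decide (a7.toNat + a10.toNat + a12.toNat ≤ 1))) &&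
      (!a12 || (decide (a7.toNat + a10.toNat + a13.toNat ≤ 1) && decide (a8.toNat + a9.toNat + a11.toNat ≤ 1))) &&
      (!a13 || (decide (a7.toNat + a11.toNat + a12.toNat ≤ 1) && decide (a8.toNat + a9.toNat + a10.toNat ≤ 1))) &&
      (!a14 || (decide (a15.toNat ≤ 0) && decide (a1.toNat + a2.toNat + a7.toNat ≤ 1))) &&
      (!a15 || (decide (a8.toNat + a9.toNat + a14.toNat ≤ 1) && decide (a0.toNat ≤ 0)))) = true →
    a0.toNat + a1.toNat + a2.toNat + a3.toNat + a4.toNat + a5.toNat + a6.toNat + a7.toNat + a8.toNat + a9.toNat + a10.toNat + a11.toNat + a12.toNat + a13.toNat + a14.toNat + a15.toNat ≤ 5 := by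
  decide +kernel

theorem count {V : Type} (X : Set V) [DecidablePred (· ∈ X)] (l : List V) (hl : l.Nodup) :
    ({u | u ∈ l} : Set V).ncard = l.length ∧
      ({u | u ∈ l} \ X).ncard + (l.map fun u => (decide (u ∈ X)).toNat).sum = l.length := by
  induction l with
  | nil => simp
  | cons a l ih =>
    obtain ⟨ha, hl'⟩ := List.nodup_cons.1 hl
    obtain ⟨h1, h2⟩ := ih hl'
    have hfin : ({u | u ∈ l} : Set V).Finite := List.finite_toSet l
    have e : ({u | u ∈ a :: l} : Set V) = insert a {u | u ∈ l} := by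
      ext u
      simp
    rw [e]
    refine ⟨by rw [Set.ncard_insert_of_notMem (s := {u | u ∈ l}) ha hfin, h1, List.length_cons], ?_⟩
    rw [List.map_cons, List.sum_cons, List.length_cons]
    by_cases haX : a ∈ X
    · rw [Set.insert_sdiff_of_mem _ haX]
      simp only [haX, decide_true, Bool.toNat_true]
      omega
    · rw [Set.insert_sdiff_of_notMem _ haX,
        Set.ncard_insert_of_notMem (fun h => ha h.1) (hfin.subset Set.sdiff_subset)]
      simp only [haX, decide_false, Bool.toNat_false]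
      omega

theorem good_le_five (X : Set (Fin 16)) (hX : Good R₀ B₀ X) : X.ncard ≤ 5 := by
  classical
  have hR : ∀ v, (nR v).Nodup := by decide +kernel
  have hB : ∀ v, (nB v).Nodup := by decide +kernel
  have h : ∀ v, decide (v ∈ X) = false ∨
      (2 * ((nR v).map fun u => (decide (u ∈ X)).toNat).sum ≤ (nR v).length ∧
        2 * ((nB v).map fun u => (decide (u ∈ X)).toNat).sum ≤ (nB v).length) := by
    intro v
    by_cases hv : v ∈ X
    · right
      obtain ⟨h1, h2⟩ := hX v hv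
      obtain ⟨k1, k2⟩ := count X _ (hR v)
      obtain ⟨l1, l2⟩ := count X _ (hB v)
      have e1 : R₀.neighborSet v = {u | u ∈ nR v} := rfl
      have e2 : B₀.neighborSet v = {u | u ∈ nB v} := rfl
      rw [e1] at h1
      rw [e2] at h2
      omega
    · exact Or.inl (by simpa using hv)
  have hc : X.ncard = ∑ v : Fin 16, (decide (v ∈ X)).toNat := by
    have e : X.toFinset = Finset.univ.filter (· ∈ X) := by
      ext v
      simp
    rw [Set.ncard_eq_toFinset_card', Finset.card_eq_sum_ones, e, Finset.sum_filter]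
    refine Finset.sum_congr rfl fun v _ => ?_
    by_cases hv : v ∈ X <;> simp [hv]
  have key := check (decide (0 ∈ X)) (decide (1 ∈ X)) (decide (2 ∈ X)) (decide (3 ∈ X))
    (decide (4 ∈ X)) (decide (5 ∈ X)) (decide (6 ∈ X)) (decide (7 ∈ X))
    (decide (8 ∈ X)) (decide (9 ∈ X)) (decide (10 ∈ X)) (decide (11 ∈ X))
    (decide (12 ∈ X)) (decide (13 ∈ X)) (decide (14 ∈ X)) (decide (15 ∈ X)) (by
    simp only [Bool.and_eq_true, Bool.or_eq_true, Bool.not_eq_true', decide_eq_true_eq]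
    refine ⟨⟨⟨⟨⟨⟨⟨⟨⟨⟨⟨⟨⟨⟨⟨?_, ?_⟩, ?_⟩, ?_⟩, ?_⟩, ?_⟩, ?_⟩, ?_⟩, ?_⟩, ?_⟩, ?_⟩, ?_⟩, ?_⟩, ?_⟩, ?_⟩, ?_⟩
    · refine (h 0).imp id fun h' => ?_
      change 2 * ((decide ((1 : Fin 16) ∈ X)).toNat + ((decide ((2 : Fin 16) ∈ X)).toNat + ((decide ((3 : Fin 16) ∈ X)).toNat + ((decide ((4 : Fin 16) ∈ X)).toNat + ((decide ((7 : Fin 16) ∈ X)).toNat + 0))))) ≤ 5 ∧ 2 * ((decide ((5 : Fin 16) ∈ X)).toNat + ((decide ((6 : Fin 16) ∈ X)).toNat + ((decide ((15 : Fin 16) ∈ X)).toNat + 0))) ≤ 3 at h'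
      omega
    · refine (h 1).imp id fun h' => ?_
      change 2 * ((decide ((0 : Fin 16) ∈ X)).toNat + ((decide ((5 : Fin 16) ∈ X)).toNat + ((decide ((6 : Fin 16) ∈ X)).toNat + 0))) ≤ 3 ∧ 2 * ((decide ((3 : Fin 16) ∈ X)).toNat + ((decide ((4 : Fin 16) ∈ X)).toNat + ((decide ((14 : Fin 16) ∈ X)).toNat + 0))) ≤ 3 at h'
      omega
    · refine (h 2).imp id fun h' => ?_
      change 2 * ((decide ((0 : Fin 16) ∈ X)).toNat + ((decide ((5 : Fin 16) ∈ X)).toNat + ((decide ((6 : Fin 16) ∈ X)).toNat + 0))) ≤ 3 ∧ 2 * ((decide ((3 : Fin 16) ∈ X)).toNat + ((decide ((4 : Fin 16) ∈ X)).toNat + ((decide ((14 : Fin 16) ∈ X)).toNat + 0))) ≤ 3 at h'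
      omega
    · refine (h 3).imp id fun h' => ?_
      change 2 * ((decide ((0 : Fin 16) ∈ X)).toNat + ((decide ((4 : Fin 16) ∈ X)).toNat + ((decide ((6 : Fin 16) ∈ X)).toNat + 0))) ≤ 3 ∧ 2 * ((decide ((1 : Fin 16) ∈ X)).toNat + ((decide ((2 : Fin 16) ∈ X)).toNat + ((decide ((5 : Fin 16) ∈ X)).toNat + 0))) ≤ 3 at h'
      omega
    · refine (h 4).imp id fun h' => ?_
      change 2 * ((decide ((0 : Fin 16) ∈ X)).toNat + ((decide ((3 : Fin 16) ∈ X)).toNat + ((decide ((5 : Fin 16) ∈ X)).toNat + 0))) ≤ 3 ∧ 2 * ((decide ((1 : Fin 16) ∈ X)).toNat + ((decide ((2 : Fin 16) ∈ X)).toNat + ((decide ((6 : Fin 16) ∈ X)).toNat + 0))) ≤ 3 at h'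
      omega
    · refine (h 5).imp id fun h' => ?_
      change 2 * ((decide ((1 : Fin 16) ∈ X)).toNat + ((decide ((2 : Fin 16) ∈ X)).toNat + ((decide ((4 : Fin 16) ∈ X)).toNat + 0))) ≤ 3 ∧ 2 * ((decide ((0 : Fin 16) ∈ X)).toNat + ((decide ((3 : Fin 16) ∈ X)).toNat + ((decide ((6 : Fin 16) ∈ X)).toNat + 0))) ≤ 3 at h'
      omega
    · refine (h 6).imp id fun h' => ?_
      change 2 * ((decide ((1 : Fin 16) ∈ X)).toNat + ((decide ((2 : Fin 16) ∈ X)).toNat + ((decide ((3 : Fin 16) ∈ X)).toNat + 0))) ≤ 3 ∧ 2 * ((decide ((0 : Fin 16) ∈ X)).toNat + ((decide ((4 : Fin 16) ∈ X)).toNat + ((decide ((5 : Fin 16) ∈ X)).toNat + 0))) ≤ 3 at h'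
      omega
    · refine (h 7).imp id fun h' => ?_
      change 2 * ((decide ((0 : Fin 16) ∈ X)).toNat + ((decide ((12 : Fin 16) ∈ X)).toNat + ((decide ((13 : Fin 16) ∈ X)).toNat + 0))) ≤ 3 ∧ 2 * ((decide ((8 : Fin 16) ∈ X)).toNat + ((decide ((9 : Fin 16) ∈ X)).toNat + ((decide ((10 : Fin 16) ∈ X)).toNat + ((decide ((11 : Fin 16) ∈ X)).toNat + ((decide ((14 : Fin 16) ∈ X)).toNat + 0))))) ≤ 5 at h'
      omega
    · refine (h 8).imp id fun h' => ?_
      change 2 * ((decide ((10 : Fin 16) ∈ X)).toNat + ((decide ((11 : Fin 16) ∈ X)).toNat + ((decide ((15 : Fin 16) ∈ X)).toNat + 0))) ≤ 3 ∧ 2 * ((decide ((7 : Fin 16) ∈ X)).toNat + ((decide ((12 : Fin 16) ∈ X)).toNat + ((decide ((13 : Fin 16) ∈ X)).toNat + 0))) ≤ 3 at h'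
      omega
    · refine (h 9).imp id fun h' => ?_
      change 2 * ((decide ((10 : Fin 16) ∈ X)).toNat + ((decide ((11 : Fin 16) ∈ X)).toNat + ((decide ((15 : Fin 16) ∈ X)).toNat + 0))) ≤ 3 ∧ 2 * ((decide ((7 : Fin 16) ∈ X)).toNat + ((decide ((12 : Fin 16) ∈ X)).toNat + ((decide ((13 : Fin 16) ∈ X)).toNat + 0))) ≤ 3 at h'
      omega
    · refine (h 10).imp id fun h' => ?_
      change 2 * ((decide ((8 : Fin 16) ∈ X)).toNat + ((decide ((9 : Fin 16) ∈ X)).toNat + ((decide ((12 : Fin 16) ∈ X)).toNat + 0))) ≤ 3 ∧ 2 * ((decide ((7 : Fin 16) ∈ X)).toNat + ((decide ((11 : Fin 16) ∈ X)).toNat + ((decide ((13 : Fin 16) ∈ X)).toNat + 0))) ≤ 3 at h'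
      omega
    · refine (h 11).imp id fun h' => ?_
      change 2 * ((decide ((8 : Fin 16) ∈ X)).toNat + ((decide ((9 : Fin 16) ∈ X)).toNat + ((decide ((13 : Fin 16) ∈ X)).toNat + 0))) ≤ 3 ∧ 2 * ((decide ((7 : Fin 16) ∈ X)).toNat + ((decide ((10 : Fin 16) ∈ X)).toNat + ((decide ((12 : Fin 16) ∈ X)).toNat + 0))) ≤ 3 at h'
      omega
    · refine (h 12).imp id fun h' => ?_
      change 2 * ((decide ((7 : Fin 16) ∈ X)).toNat + ((decide ((10 : Fin 16) ∈ X)).toNat + ((decide ((13 : Fin 16) ∈ X)).toNat + 0))) ≤ 3 ∧ 2 * ((decide ((8 : Fin 16) ∈ X)).toNat + ((decide ((9 : Fin 16) ∈ X)).toNat + ((decide ((11 : Fin 16) ∈ X)).toNat + 0))) ≤ 3 at h'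
      omega
    · refine (h 13).imp id fun h' => ?_
      change 2 * ((decide ((7 : Fin 16) ∈ X)).toNat + ((decide ((11 : Fin 16) ∈ X)).toNat + ((decide ((12 : Fin 16) ∈ X)).toNat + 0))) ≤ 3 ∧ 2 * ((decide ((8 : Fin 16) ∈ X)).toNat + ((decide ((9 : Fin 16) ∈ X)).toNat + ((decide ((10 : Fin 16) ∈ X)).toNat + 0))) ≤ 3 at h'
      omega
    · refine (h 14).imp id fun h' => ?_
      change 2 * ((decide ((15 : Fin 16) ∈ X)).toNat + 0) ≤ 1 ∧ 2 * ((decide ((1 : Fin 16) ∈ X)).toNat + ((decide ((2 : Fin 16) ∈ X)).toNat + ((decide ((7 : Fin 16) ∈ X)).toNat + 0))) ≤ 3 at h'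
      omega
    · refine (h 15).imp id fun h' => ?_
      change 2 * ((decide ((8 : Fin 16) ∈ X)).toNat + ((decide ((9 : Fin 16) ∈ X)).toNat + ((decide ((14 : Fin 16) ∈ X)).toNat + 0))) ≤ 3 ∧ 2 * ((decide ((0 : Fin 16) ∈ X)).toNat + 0) ≤ 1 at h'
      omega)
  rw [hc]
  simp only [Fin.sum_univ_succ, Finset.univ_eq_empty, Finset.sum_empty]
  change (decide ((0 : Fin 16) ∈ X)).toNat + ((decide ((1 : Fin 16) ∈ X)).toNat + ((decide ((2 : Fin 16) ∈ X)).toNat + ((decide ((3 : Fin 16) ∈ X)).toNat + ((decide ((4 : Fin 16) ∈ X)).toNat + ((decide ((5 : Fin 16) ∈ X)).toNat + ((decide ((6 : Fin 16) ∈ X)).toNat + ((decide ((7 : Fin 16) ∈ X)).toNat + ((decide ((8 : Fin 16) ∈ X)).toNat + ((decide ((9 : Fin 16) ∈ X)).toNat + ((decide ((10 : Fin 16) ∈ X)).toNat + ((decide ((11 : Fin 16) ∈ X)).toNat + ((decide ((12 : Fin 16) ∈ X)).toNat + ((decide ((13 : Fin 16) ∈ X)).toNat + ((decide ((14 : Fin 16) ∈ X)).toNat + ((decide ((15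 : Fin 16) ∈ X)).toNat + 0))))))))))))))) ≤ 5
  omega

/-- `k` disjoint copies of a graph. -/
def copies (k : ℕ) (G : SimpleGraph (Fin 16)) : SimpleGraph (Fin k × Fin 16) where
  Adj p q := p.1 = q.1 ∧ G.Adj p.2 q.2
  symm := ⟨fun _ _ h => ⟨h.1.symm, h.2.symm⟩⟩
  loopless := ⟨fun _ h => h.2.ne rfl⟩

theorem neighborSet_copies (k : ℕ) (G : SimpleGraph (Fin 16)) (i : Fin k) (v : Fin 16)
    (X : Set (Fin k × Fin 16)) :
    ((copies k G).neighborSet (i, v)).ncard = (G.neighborSet v).ncard ∧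
      ((copies k G).neighborSet (i, v) \ X).ncard =
        (G.neighborSet v \ {u | (i, u) ∈ X}).ncard := by
  have hinj : Function.Injective (fun u : Fin 16 => (i, u)) := fun a b h => (Prod.ext_iff.1 h).2
  constructor
  · rw [← Set.ncard_image_of_injective _ hinj]
    congr 1
    ext ⟨j, u⟩
    constructor
    · rintro ⟨h1, h2⟩
      obtain rfl : i = j := h1
      exact ⟨u, h2, rfl⟩
    · rintro ⟨w, hw, h⟩
      obtain ⟨rfl, rfl⟩ := Prod.ext_iff.1 h
      exact ⟨rfl, hw⟩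
  · rw [← Set.ncard_image_of_injective _ hinj]
    congr 1
    ext ⟨j, u⟩
    constructor
    · rintro ⟨⟨h1, h2⟩, h3⟩
      obtain rfl : i = j := h1
      exact ⟨u, ⟨h2, h3⟩, rfl⟩
    · rintro ⟨w, hw, h⟩
      obtain ⟨rfl, rfl⟩ := Prod.ext_iff.1 h
      exact ⟨⟨rfl, hw.1⟩, hw.2⟩

theorem copies_le (k : ℕ) (X : Set (Fin k × Fin 16))
    (hX : Good (copies k R₀) (copies k B₀) X) : X.ncard ≤ 5 * k := by
  classical
  have h : ∀ i : Fin k, ({u | (i, u) ∈ X} : Set (Fin 16)).ncard ≤ 5 := by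
    intro i
    refine good_le_five _ fun v hv => ?_
    obtain ⟨h1, h2⟩ := hX (i, v) hv
    obtain ⟨k1, k2⟩ := neighborSet_copies k R₀ i v X
    obtain ⟨l1, l2⟩ := neighborSet_copies k B₀ i v X
    omega
  rw [Set.ncard_eq_toFinset_card', Finset.card_eq_sum_card_fiberwise (f := Prod.fst)
    (t := Finset.univ) fun _ _ => Finset.mem_coe.2 (Finset.mem_univ _)]
  refine (Finset.sum_le_card_nsmul _ _ 5 fun i _ => ?_).trans (by simp [mul_comm])
  refine le_trans ?_ (h i)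
  rw [Set.ncard_eq_toFinset_card']
  refine Finset.card_le_card_of_injOn Prod.snd ?_ ?_
  · rintro ⟨j, u⟩ hp
    simp only [Finset.coe_filter, Set.mem_toFinset, Set.mem_ofPred_eq] at hp
    obtain ⟨h1, rfl⟩ := hp
    simpa using h1
  · rintro ⟨j, u⟩ hp ⟨j', u'⟩ hq e
    simp only [Finset.coe_filter, Set.mem_toFinset, Set.mem_ofPred_eq] at hp hq
    exact Prod.ext (hp.2.trans hq.2.symm) e

/-- Not every 2-edge-coloured graph on `n` vertices has a good set with at least `n / 3` vertices;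
for every `k` there is one on `16 k` vertices whose good sets have at most `5 k` vertices. -/
theorem result :
    (¬ ∀ (n : ℕ) (R B : SimpleGraph (Fin n)), Disjoint R B →
      ∃ X : Set (Fin n), Good R B X ∧ (n : ℚ) / 3 ≤ X.ncard) ∧
    ∀ k : ℕ, ∃ R B : SimpleGraph (Fin k × Fin 16), Disjoint R B ∧
      ∀ X : Set (Fin k × Fin 16), Good R B X → X.ncard ≤ 5 * k := by
  refine ⟨fun h => ?_, fun k => ⟨copies k R₀, copies k B₀, ?_, copies_le k⟩⟩
  · obtain ⟨X, hX, hc⟩ := h 16 R₀ B₀ disjoint₀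
    have h5 : (X.ncard : ℚ) ≤ 5 := by exact_mod_cast good_le_five X hX
    norm_num at hc
    linarith
  · rw [disjoint_iff, eq_bot_iff]
    intro p q h
    exact (disjoint_iff.1 disjoint₀).le (⟨h.1.2, h.2.2⟩ : (R₀ ⊓ B₀).Adj p.2 q.2)

end Pool.Agent.Results.MP_1e7754_co.NoThird
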